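import Mathlib

/-!
# Wilson primes of `F_q[t]` and the second Hasse derivative
-/

namespace Pool.Agent.H440.WI

open Polynomial Finset

section aux

variable {L : Type*} [Field L] [Fintype L] [DecidableEq L]

lemma prod_units {M : Type*} [CommMonoid M] (f : L → M) :
    ∏ u : Lˣ, f u = ∏ x ∈ univ.erase (0 : L), f x := by
  refine Finset.prod_bij (fun u _ => (u : L)) (fun u _ => by simp)
    (fun u _ v _ h => Units.ext h) (fun x hx => ?_) (fun u _ => rfl)
  rw [mem_erase] at hx
  exact ⟨Units.mk0 x hx.1, mem_univ _, rfl⟩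

lemma prod_nonzero : ∏ x ∈ univ.erase (0 : L), x = -1 := by
  rw [← prod_units (fun x : L => x)]
  have h := FiniteField.prod_univ_units_id_eq_neg_one (K := L)
  have h2 := congrArg (fun u : Lˣ => (u : L)) h
  simp only [Units.coe_prod, Units.val_neg, Units.val_one] at h2
  exact h2

lemma sum_nonzero (i : ℕ) (h1 : 1 ≤ i) (h2 : i < Fintype.card L - 1) :
    ∑ x ∈ univ.erase (0 : L), x ^ i = 0 := by
  have h := FiniteField.sum_pow_lt_card_sub_one L i h2
  rw [← Finset.add_sum_erase univ (fun x : L => x ^ i) (mem_univ 0), zero_pow (by omega),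
    zero_add] at h
  exact h

lemma sum_one_nonzero : ∑ _x ∈ univ.erase (0 : L), (1 : L) = -1 := by
  have h : ∑ _x : L, (1 : L) = 0 := by
    rw [Finset.sum_const, card_univ, nsmul_eq_mul, mul_one]
    exact FiniteField.cast_card_eq_zero L
  rw [← Finset.add_sum_erase univ (fun x : L => (1 : L)) (mem_univ 0)] at h
  linear_combination h

end aux

section lag

variable {L : Type*} [Field L]

/-- the derivative at a node of a polynomial in terms of its values at the nodes -/
lemma deriv_node {ι : Type*} [DecidableEq ι] (s : Finset ι) (v : ι → L) (hv : Set.InjOn v s)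
    (x : L) (A : L[X]) (hA : A.degree < #s) :
    A.derivative.eval x = ∑ i ∈ s, A.eval (v i) * (Lagrange.basis s v i).derivative.eval x := by
  conv_lhs => rw [Lagrange.eq_interpolate hv hA]
  rw [Lagrange.interpolate_apply, derivative_sum, eval_finsetSum]
  refine Finset.sum_congr rfl (fun i _ => ?_)
  rw [derivative_mul, derivative_C, zero_mul, zero_add, eval_mul, eval_C]

lemma basis_eq {ι : Type*} [DecidableEq ι] (s : Finset ι) (v : ι → L) (i : ι) :
    Lagrange.basis s v i =
      C (∏ j ∈ s.erase i, (v i - v j)⁻¹) * Lagrange.nodal (s.erase i) v := by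
  rw [Lagrange.basis, Lagrange.nodal_eq, map_prod, ← Finset.prod_mul_distrib]
  rfl

/-- the second Hasse derivative at a node -/
lemma hasse_node (x : L) (G : L[X]) :
    (hasseDeriv 2 ((X - C x) * G)).eval x = G.derivative.eval x := by
  rw [← taylor_coeff, taylor_mul, map_sub, taylor_X, taylor_C, add_sub_cancel_right]
  rw [show (2 : ℕ) = 1 + 1 from rfl, coeff_X_mul, taylor_coeff_one]

lemma c_zero {ι : Type*} [DecidableEq ι] (s : Finset ι) (v : ι → L) (hv : Set.InjOn v s) (i : ι)
    (hi : i ∈ s) :
    (Lagrange.basis s v i).derivative.eval (v i) = 0 ↔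
      (hasseDeriv 2 (Lagrange.nodal s v)).eval (v i) = 0 := by
  rw [Lagrange.nodal_eq_mul_nodal_erase hi, hasse_node, basis_eq, derivative_mul, derivative_C,
    zero_mul, zero_add, eval_mul, eval_C, mul_eq_zero, or_iff_right]
  rw [Finset.prod_eq_zero_iff]
  rintro ⟨j, hj, h⟩
  rw [mem_erase] at hj
  rw [inv_eq_zero, sub_eq_zero] at h
  exact hj.1 (hv hi hj.2 h).symm

end lag

section main

variable {K : Type*} [Field K] [Fintype K]

lemma frob_pow {L : Type*} [Field L] [Algebra K L] (k : ℕ) (x : L) :
    ((FiniteField.frobeniusAlgHom K L) ^ k) x = x ^ (Fintype.card K ^ k) := by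
  induction k generalizing x with
  | zero => simp
  | succ n ih => rw [pow_succ', AlgHom.mul_apply, ih, FiniteField.frobeniusAlgHom_apply, ← pow_mul,
      pow_succ]

variable (P : K[X]) [hI : Fact (Irreducible P)]

lemma finite_root : Module.Finite K (AdjoinRoot P) :=
  (AdjoinRoot.powerBasis hI.out.ne_zero).finite

lemma finrank_root : Module.finrank K (AdjoinRoot P) = P.natDegree := by
  rw [(AdjoinRoot.powerBasis hI.out.ne_zero).finrank, AdjoinRoot.powerBasis_dim]

/-- the conjugates of the root -/
noncomputable def nodes (k : ℕ) : AdjoinRoot P := AdjoinRoot.root P ^ (Fintype.card K ^ k)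

lemma nodes_zero : nodes P 0 = AdjoinRoot.root P := by rw [nodes, pow_zero, pow_one]

lemma aeval_nodes (k : ℕ) (a : K[X]) :
    aeval (nodes P k) a = (AdjoinRoot.mk P a) ^ (Fintype.card K ^ k) := by
  rw [nodes, ← frob_pow, aeval_algHom_apply, AdjoinRoot.aeval_eq, frob_pow]

lemma inj_nodes : Set.InjOn (nodes P) (range P.natDegree : Finset ℕ) := by
  have := finite_root P
  have : Finite (AdjoinRoot P) := Module.finite_of_finite K
  have key : ∀ i j : ℕ, i < j → j < P.natDegree → nodes P i ≠ nodes P j := by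
    intro i j hij hj h
    obtain ⟨m, rfl⟩ : ∃ m, j = i + m := ⟨j - i, by omega⟩
    rw [nodes, nodes, ← frob_pow, ← frob_pow, pow_add, AlgHom.mul_apply] at h
    have h2 := (RingHom.injective
      ((FiniteField.frobeniusAlgHom K (AdjoinRoot P)) ^ i).toRingHom) h
    have h3 : (FiniteField.frobeniusAlgHom K (AdjoinRoot P)) ^ m = 1 :=
      AdjoinRoot.algHom_ext h2.symm
    have h4 := orderOf_dvd_of_pow_eq_one h3
    rw [FiniteField.orderOf_frobeniusAlgHom, finrank_root] at h4
    have := Nat.le_of_dvd (by omega) h4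
    omega
  intro i hi j hj h
  simp only [coe_range, Set.mem_Iio] at hi hj
  rcases lt_trichotomy i j with h1 | h1 | h1
  · exact absurd h (key i j h1 hj)
  · exact h1
  · exact absurd h.symm (key j i h1 hi)

lemma map_eq_nodal (hm : P.Monic) :
    P.map (algebraMap K (AdjoinRoot P)) = Lagrange.nodal (range P.natDegree) (nodes P) := by
  refine eq_of_degree_sub_lt_of_eval_index_eq (range P.natDegree) (inj_nodes P) ?_ (fun i hi => ?_)
  · have hd : (P.map (algebraMap K (AdjoinRoot P))).degree = (P.natDegree : WithBot ℕ) := by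
      rw [degree_map, degree_eq_natDegree hm.ne_zero]
    have h := degree_sub_lt_left (p := P.map (algebraMap K (AdjoinRoot P)))
      (q := Lagrange.nodal (range P.natDegree) (nodes P))
      (by rw [hd, Lagrange.degree_nodal, card_range]) ((hm.map _).ne_zero)
      (by rw [(hm.map _).leadingCoeff, Lagrange.nodal_monic.leadingCoeff])
    rw [hd] at h
    rwa [card_range]
  · rw [Lagrange.eval_nodal_at_node hi, eval_map_algebraMap, aeval_nodes, AdjoinRoot.mk_self,
      zero_pow (pow_ne_zero _ Fintype.card_ne_zero)]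

/-- the representative of degree less than the degree of `P` -/
noncomputable def rep (x : AdjoinRoot P) : K[X] :=
  (Classical.choose (AdjoinRoot.mk_surjective x)) % P

lemma mk_rep (x : AdjoinRoot P) : AdjoinRoot.mk P (rep P x) = x := by
  rw [rep]
  conv_rhs => rw [← Classical.choose_spec (AdjoinRoot.mk_surjective x)]
  rw [AdjoinRoot.mk_eq_mk]
  refine ⟨-(Classical.choose (AdjoinRoot.mk_surjective x) / P), ?_⟩
  have := EuclideanDomain.div_add_mod (Classical.choose (AdjoinRoot.mk_surjective x)) P
  linear_combination this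

lemma degree_rep (x : AdjoinRoot P) : (rep P x).degree < P.degree :=
  EuclideanDomain.mod_lt _ hI.out.ne_zero

lemma bij_rep : Set.BijOn (rep P) {x | x ≠ 0} {a : K[X] | a ≠ 0 ∧ a.natDegree < P.natDegree} := by
  refine ⟨fun x hx => ?_, fun x _ y _ h => ?_, fun a ha => ?_⟩
  · have h0 : rep P x ≠ 0 := by
      intro h
      apply hx
      rw [← mk_rep P x, h, map_zero]
    exact ⟨h0, natDegree_lt_natDegree h0 (degree_rep P x)⟩
  · rw [← mk_rep P x, ← mk_rep P y, h]
  · have hd : a.degree < P.degree := by
      rw [degree_eq_natDegree ha.1, degree_eq_natDegree hI.out.ne_zero]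
      exact_mod_cast ha.2
    have h1 : rep P (AdjoinRoot.mk P a) = a := by
      have h2 := mk_rep P (AdjoinRoot.mk P a)
      rw [AdjoinRoot.mk_eq_mk] at h2
      have h3 := eq_zero_of_dvd_of_degree_lt h2
        (lt_of_le_of_lt (degree_sub_le _ _) (max_lt (degree_rep P _) hd))
      exact sub_eq_zero.1 h3
    refine ⟨AdjoinRoot.mk P a, fun h => ha.1 ?_, h1⟩
    rw [← h1, h]
    have h2 := mk_rep P 0
    rw [AdjoinRoot.mk_eq_zero] at h2
    exact eq_zero_of_dvd_of_degree_lt h2 (degree_rep P _)

/-- the product of the nonzero polynomials of degree less than the degree of `P` -/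
lemma prod_rep [Fintype (AdjoinRoot P)] [DecidableEq (AdjoinRoot P)] :
    ∏ᶠ a ∈ {a : K[X] | a ≠ 0 ∧ a.natDegree < P.natDegree}, a =
      ∏ x ∈ univ.erase (0 : AdjoinRoot P), rep P x := by
  rw [← finprod_mem_coe_finset]
  refine (finprod_mem_eq_of_bijOn (rep P) ?_ (fun x _ => rfl)).symm
  have h : ((univ.erase (0 : AdjoinRoot P) : Finset (AdjoinRoot P)) : Set (AdjoinRoot P)) =
      {x | x ≠ 0} := by
    ext x
    simp
  rw [h]
  exact bij_rep P

/-- Wilson's theorem and its derivative -/
lemma mk_deriv [Fintype (AdjoinRoot P)] [DecidableEq (AdjoinRoot P)] :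
    AdjoinRoot.mk P (∏ x ∈ univ.erase (0 : AdjoinRoot P), rep P x) = -1 ∧
    AdjoinRoot.mk P (derivative (∏ x ∈ univ.erase (0 : AdjoinRoot P), rep P x)) =
      (Lagrange.basis (range P.natDegree) (nodes P) 0).derivative.eval (nodes P 0) := by
  have hd0 : 0 < P.natDegree := hI.out.natDegree_pos
  have h1 : AdjoinRoot.mk P (∏ x ∈ univ.erase (0 : AdjoinRoot P), rep P x) = -1 := by
    rw [map_prod, ← prod_nonzero]
    exact Finset.prod_congr rfl (fun x _ => mk_rep P x)
  refine ⟨h1, ?_⟩
  rw [derivative_prod_finset, map_sum]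
  set c : ℕ → AdjoinRoot P := fun k =>
    (Lagrange.basis (range P.natDegree) (nodes P) k).derivative.eval (nodes P 0) with hc
  have h2 : ∀ x ∈ univ.erase (0 : AdjoinRoot P),
      AdjoinRoot.mk P ((∏ y ∈ (univ.erase (0 : AdjoinRoot P)).erase x, rep P y) *
        derivative (rep P x)) =
      - ∑ k ∈ range P.natDegree, c k * x ^ (Fintype.card K ^ k - 1) := by
    intro x hx
    have hx0 : x ≠ 0 := (mem_erase.1 hx).1
    have e1 : AdjoinRoot.mk P (∏ y ∈ (univ.erase (0 : AdjoinRoot P)).erase x, rep P y) * x = -1 := by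
      rw [← h1]
      rw [← Finset.prod_erase_mul _ _ hx, map_mul, mk_rep]
    have e2 : AdjoinRoot.mk P (derivative (rep P x)) =
        ∑ k ∈ range P.natDegree, x ^ (Fintype.card K ^ k) * c k := by
      have h3 := deriv_node (range P.natDegree) (nodes P) (inj_nodes P) (nodes P 0)
        ((rep P x).map (algebraMap K (AdjoinRoot P)))
        (by rw [degree_map, card_range, ← degree_eq_natDegree hI.out.ne_zero]
            exact degree_rep P x)
      rw [derivative_map, eval_map_algebraMap, aeval_nodes, pow_zero, pow_one] at h3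
      rw [h3]
      refine Finset.sum_congr rfl (fun k _ => ?_)
      rw [eval_map_algebraMap, aeval_nodes, mk_rep]
    rw [map_mul, e2]
    have e3 : AdjoinRoot.mk P (∏ y ∈ (univ.erase (0 : AdjoinRoot P)).erase x, rep P y) =
        - x⁻¹ := by
      field_simp
      exact e1
    rw [e3, neg_mul, Finset.mul_sum]
    congr 1
    refine Finset.sum_congr rfl (fun k _ => ?_)
    have e4 : x ^ (Fintype.card K ^ k) = x ^ (Fintype.card K ^ k - 1) * x := by
      rw [← pow_succ]
      congr 1
      have : 0 < Fintype.card K ^ k := pow_pos Fintype.card_pos k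
      omega
    rw [e4]
    field_simp
  rw [Finset.sum_congr rfl h2, Finset.sum_neg_distrib, Finset.sum_comm]
  have h4 : ∀ k ∈ range P.natDegree, k ≠ 0 →
      ∑ x ∈ univ.erase (0 : AdjoinRoot P), c k * x ^ (Fintype.card K ^ k - 1) = 0 := by
    intro k hk hk0
    rw [← Finset.mul_sum, sum_nonzero, mul_zero]
    · have : 1 < Fintype.card K ^ k := one_lt_pow₀ Fintype.one_lt_card hk0
      omega
    · haveI := finite_root P
      rw [Module.card_eq_pow_finrank (K := K) (V := AdjoinRoot P), finrank_root]
      have h5 : Fintype.card K ^ k < Fintype.card K ^ P.natDegree :=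
        Nat.pow_lt_pow_right Fintype.one_lt_card (mem_range.1 hk)
      have : 0 < Fintype.card K ^ k := pow_pos Fintype.card_pos k
      omega
  rw [Finset.sum_eq_single_of_mem 0 (mem_range.2 hd0) h4, ← Finset.mul_sum]
  simp only [pow_zero, Nat.sub_self, sum_one_nonzero]
  rw [hc]
  ring

end main

/-- **Thakur's criterion**: a monic irreducible polynomial `P` over a finite field is a Wilson
prime if and only if its second Hasse derivative vanishes. -/
theorem wilson_iff {K : Type*} [Field K] [Fintype K] (P : K[X]) (hP : Irreducible P)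
    (hm : P.Monic) :
    P ^ 2 ∣ (∏ᶠ a ∈ {a : K[X] | a ≠ 0 ∧ a.natDegree < P.natDegree}, a) + 1 ↔
      hasseDeriv 2 P = 0 := by
  classical
  have hI : Fact (Irreducible P) := ⟨hP⟩
  have := finite_root P
  have : Finite (AdjoinRoot P) := Module.finite_of_finite K
  have : Fintype (AdjoinRoot P) := Fintype.ofFinite _
  have hd0 : 0 < P.natDegree := hP.natDegree_pos
  rw [prod_rep]
  obtain ⟨h1, h2⟩ := mk_deriv P
  set W := ∏ x ∈ univ.erase (0 : AdjoinRoot P), rep P x with hW
  have h3 : P ∣ W + 1 := by
    rw [← AdjoinRoot.mk_eq_zero, map_add, h1, map_one, neg_add_cancel]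
  obtain ⟨Q, hQ⟩ := h3
  have hsep : IsCoprime P (derivative P) := PerfectField.separable_of_irreducible hP
  have s1 : P ^ 2 ∣ W + 1 ↔ P ∣ Q := by
    rw [hQ, sq]
    exact mul_dvd_mul_iff_left hP.ne_zero
  have s2 : P ∣ derivative W ↔ P ∣ Q := by
    have e : derivative W = derivative P * Q + P * derivative Q := by
      rw [← derivative_mul, ← hQ, derivative_add, derivative_one, add_zero]
    rw [e]
    constructor
    · intro h
      have h5 : P ∣ derivative P * Q := (dvd_add_left (dvd_mul_right _ _)).1 h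
      exact hsep.dvd_of_dvd_mul_left h5
    · intro h
      exact dvd_add (h.mul_left _) (dvd_mul_right _ _)
  have s3 : P ∣ derivative W ↔ (hasseDeriv 2 P) = 0 := by
    rw [← AdjoinRoot.mk_eq_zero, h2, c_zero _ _ (inj_nodes P) 0 (mem_range.2 hd0),
      ← map_eq_nodal P hm]
    have e : hasseDeriv 2 (P.map (algebraMap K (AdjoinRoot P))) =
        (hasseDeriv 2 P).map (algebraMap K (AdjoinRoot P)) := by
      ext n
      rw [hasseDeriv_coeff, coeff_map, coeff_map, hasseDeriv_coeff, map_mul, map_natCast]
    rw [e, eval_map_algebraMap, aeval_nodes, pow_zero, pow_one, AdjoinRoot.mk_eq_zero]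
    constructor
    · intro h
      by_contra h0
      have h6 := natDegree_le_of_dvd h h0
      have h7 := natDegree_hasseDeriv_le P 2
      omega
    · intro h
      rw [h]
      exact dvd_zero _
  rw [s1, ← s2, s3]

end Pool.Agent.H440.WI
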