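import Mathlib
import Pool.Agent.H440.WI.Crit

/-!
# Wilson primes of `F_q[t]`, `q` even: the coefficients, and positivity of the main term
-/

namespace Pool.Agent.H440.WI

open Polynomial Finset

/-- in characteristic two the second Hasse derivative vanishes if and only if the coefficients of
`X ^ i` with `i` congruent to `2` or `3` modulo `4` vanish -/
theorem hasse_two {K : Type*} [Field K] [CharP K 2] (P : K[X]) :
    hasseDeriv 2 P = 0 ↔ ∀ i : ℕ, 2 ≤ i % 4 → P.coeff i = 0 := by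
  have h4 : ∀ n : ℕ, ((n + 2).choose 2) = (n + 2) * (n + 1) / 2 := fun n => by
    rw [Nat.choose_two_right]
    congr 1
  have hodd : ∀ n : ℕ, 2 ≤ (n + 2) % 4 → ((n + 2).choose 2) % 2 = 1 := by
    intro n hn
    rw [h4]
    obtain ⟨k, hk⟩ : ∃ k, n = 4 * k ∨ n = 4 * k + 1 := ⟨n / 4, by omega⟩
    rcases hk with rfl | rfl
    · rw [show (4 * k + 2) * (4 * k + 1) = 2 * (2 * (4 * k * k + 3 * k) + 1) by ring]
      omega
    · rw [show (4 * k + 1 + 2) * (4 * k + 1 + 1) = 2 * (2 * (4 * k * k + 5 * k + 1) + 1) by ring]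
      omega
  have heven : ∀ n : ℕ, (n + 2) % 4 < 2 → ((n + 2).choose 2) % 2 = 0 := by
    intro n hn
    rw [h4]
    obtain ⟨k, hk⟩ : ∃ k, n = 4 * k + 2 ∨ n = 4 * k + 3 := ⟨n / 4, by omega⟩
    rcases hk with rfl | rfl
    · rw [show (4 * k + 2 + 2) * (4 * k + 2 + 1) = 2 * (2 * ((k + 1) * (4 * k + 3))) by ring]
      omega
    · rw [show (4 * k + 3 + 2) * (4 * k + 3 + 1) = 2 * (2 * ((k + 1) * (4 * k + 5))) by ring]
      omega
  have hcoe : ∀ n : ℕ, (hasseDeriv 2 P).coeff n = ((n + 2).choose 2 : K) * P.coeff (n + 2) :=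
    fun n => hasseDeriv_coeff 2 P n
  have hcast : ∀ m : ℕ, (m : K) = ((m % 2 : ℕ) : K) := by
    intro m
    conv_lhs => rw [← Nat.div_add_mod m 2]
    push_cast
    rw [show (2 : K) = 0 from CharTwo.two_eq_zero, zero_mul, zero_add]
  constructor
  · intro h i hi
    obtain ⟨n, rfl⟩ : ∃ n, i = n + 2 := ⟨i - 2, by omega⟩
    have h1 := hcoe n
    rw [h, coeff_zero, hcast, hodd n hi, Nat.cast_one, one_mul] at h1
    exact h1.symm
  · intro h
    ext n
    rw [hcoe, coeff_zero, hcast]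
    rcases lt_or_ge ((n + 2) % 4) 2 with h1 | h1
    · rw [heven n h1, Nat.cast_zero, zero_mul]
    · rw [h _ h1, mul_zero]

lemma two_pow_gt (j : ℕ) (hj : 8 ≤ j) : 18 * j + 18 < 2 ^ j := by
  induction j, hj using Nat.le_induction with
  | base => norm_num
  | succ n hn ih => rw [pow_succ]; omega

lemma main_gt (q : ℝ) (hq : 2 ≤ q) (M a b : ℕ) (hab : a ≤ b) (h8 : 24 ≤ b - a)
    (hM : M ≤ 18 * ((b - a) / 3) + 18) : 2 * (M : ℝ) ^ 3 * q ^ a < 2 * q ^ b := by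
  obtain ⟨m, rfl⟩ : ∃ m, b = a + m := ⟨b - a, by omega⟩
  rw [Nat.add_sub_cancel_left] at h8 hM
  have h1 := two_pow_gt (m / 3) (by omega)
  have h2 : M < 2 ^ (m / 3) := by omega
  have h3 : (M : ℝ) < 2 ^ (m / 3) := by exact_mod_cast h2
  have h4 : (M : ℝ) ^ 3 < 2 ^ m := by
    calc (M : ℝ) ^ 3 < ((2 : ℝ) ^ (m / 3)) ^ 3 :=
          pow_lt_pow_left₀ h3 (Nat.cast_nonneg _) (by norm_num)
      _ = 2 ^ (m / 3 * 3) := by rw [← pow_mul]
      _ ≤ 2 ^ m := pow_le_pow_right₀ (by norm_num) (by omega)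
  have h5 : (2 : ℝ) ^ m ≤ q ^ m := pow_le_pow_left₀ (by norm_num) hq m
  have h6 : 0 < q ^ a := pow_pos (by linarith) a
  rw [pow_add]
  nlinarith

end Pool.Agent.H440.WI
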